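import Mathlib

set_option autoImplicit false

namespace Pool.Agent.Results.MP_3e1131_co.Bounded

/-- A contains a copy aS + b of S with a ≥ 1 and b an integer. -/
def HasCopy (S A : Finset ℕ) : Prop :=
  ∃ (a : ℕ) (b : ℤ), 1 ≤ a ∧ ∀ s ∈ S, ∃ x ∈ A, (x : ℤ) = a * s + b

/-- Maker holds A, Breaker holds B, Maker is to move: Maker can force a copy of S using at most
N further selections. -/
def Win (S : Finset ℕ) : ℕ → Finset ℕ → Finset ℕ → Prop
  | 0, A, _ => HasCopy S A
  | N + 1, A, B => HasCopy S A ∨ ∃ x, x ∉ A ∧ x ∉ B ∧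
      (HasCopy S (insert x A) ∨ ∀ y, y ∉ insert x A → y ∉ B → Win S N (insert x A) (insert y B))

section Board

variable {X : Type} [DecidableEq X] (L : Finset X → Prop)

def W1 : ℕ → Finset X → Finset X → Prop
  | 0, A, _ => L A
  | r + 1, A, B => L A ∨ ∃ x, x ∉ A ∧ x ∉ B ∧ (L (insert x A) ∨
      ((∃ y, y ∉ insert x A ∧ y ∉ B) ∧
        ∀ y, y ∉ insert x A → y ∉ B → W1 r (insert x A) (insert y B)))

def W2 (r : ℕ) (A B : Finset X) : Prop :=
  L A ∨ ((∃ y, y ∉ A ∧ y ∉ B) ∧ ∀ y, y ∉ A → y ∉ B → W1 L r A (insert y B))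

lemma W1_succ (r : ℕ) : ∀ A B, W1 L r A B → W1 L (r + 1) A B := by
  induction r with
  | zero => exact fun A B h => Or.inl h
  | succ r ih =>
    rintro A B (h | ⟨x, h1, h2, h | ⟨h3, h4⟩⟩)
    · exact Or.inl h
    · exact Or.inr ⟨x, h1, h2, Or.inl h⟩
    · exact Or.inr ⟨x, h1, h2, Or.inr ⟨h3, fun y a b => ih _ _ (h4 y a b)⟩⟩

lemma dich [Fintype X] (hL : ∀ A B : Finset X, (∀ x, x ∈ A ∨ x ∈ B) → L A ∨ L B) (r : ℕ) :
    ∀ A B : Finset X, (A ∪ B)ᶜ.card ≤ r → W1 L r A B ∨ W2 L r B A := by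
  have full : ∀ r A B, (∀ x, x ∈ A ∨ x ∈ B) → W1 L r A B ∨ W2 L r B A := by
    intro r A B h
    rcases hL A B h with h | h
    · left; cases r
      · exact h
      · exact Or.inl h
    · exact Or.inr (Or.inl h)
  induction r with
  | zero =>
    intro A B h
    refine full _ _ _ fun x => ?_
    by_contra hx
    have : x ∈ (A ∪ B)ᶜ := by simpa using hx
    rw [Finset.card_eq_zero.1 (Nat.le_zero.1 h)] at this
    simp at this
  | succ r ih =>
    intro A B h
    by_cases hf : ∀ x, x ∈ A ∨ x ∈ B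
    · exact full _ _ _ hf
    push Not at hf
    by_cases h2 : W2 L (r + 1) B A
    · exact Or.inr h2
    left
    simp only [W2, not_or, not_and, not_forall] at h2
    obtain ⟨y, hyB, hyA, hy⟩ := h2.2 (let ⟨x, a, b⟩ := hf; ⟨x, b, a⟩)
    have hc : (B ∪ insert y A)ᶜ.card ≤ r := by
      have : (B ∪ insert y A)ᶜ = ((A ∪ B)ᶜ).erase y := by
        ext z; simp only [Finset.mem_compl, Finset.mem_union, Finset.mem_insert,
          Finset.mem_erase]; tauto
      rw [this, Finset.card_erase_of_mem (by simp [hyA, hyB])]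
      omega
    rcases ih B (insert y A) hc with h3 | h3
    · exact absurd (W1_succ L r _ _ h3) hy
    · exact Or.inr ⟨y, hyA, hyB, h3⟩

lemma transfer (S : Finset ℕ) (f : X → ℕ) (hf : Function.Injective f)
    (hL : ∀ A, L A → HasCopy S (A.image f)) (r : ℕ) :
    ∀ (A B : Finset X) (B' : Finset ℕ), (∀ x, f x ∈ B' → x ∈ B) → W1 L r A B →
      Win S r (A.image f) B' := by
  induction r with
  | zero => exact fun A B B' _ h => hL A h
  | succ r ih =>
    rintro A B B' hB (h | ⟨x, h1, h2, h3⟩)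
    · exact Or.inl (hL A h)
    refine Or.inr ⟨f x, by simpa [hf.eq_iff] using h1, fun h => h2 (hB x h), ?_⟩
    rw [← Finset.image_insert]
    rcases h3 with h | ⟨⟨z, z1, z2⟩, h4⟩
    · exact Or.inl (hL _ h)
    refine Or.inr fun y y1 y2 => ?_
    by_cases hy : ∃ u, f u = y ∧ u ∉ B
    · obtain ⟨u, rfl, hu⟩ := hy
      refine ih _ _ _ (fun w hw => ?_) (h4 u (fun h => y1 (Finset.mem_image_of_mem f h)) hu)
      rcases Finset.mem_insert.1 hw with e | e
      · rw [hf e]; exact Finset.mem_insert_self _ _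
      · exact Finset.mem_insert_of_mem (hB w e)
    · push Not at hy
      refine ih _ _ _ (fun w hw => Finset.mem_insert_of_mem ?_) (h4 z z1 z2)
      rcases Finset.mem_insert.1 hw with e | e
      · exact hy w e
      · exact hB w e

end Board

/-- The number of moves Maker needs is bounded in terms of the size of S alone. -/
theorem result : ∃ C : ℕ → ℕ, ∀ S : Finset ℕ, S.Nonempty → Win S (C S.card) ∅ ∅ := by
  classical
  choose I hI hHJ using fun n => Combinatorics.Line.exists_mono_in_high_dimension (Fin n) Bool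
  refine ⟨fun n => Fintype.card (I n → Fin n), fun S hS => ?_⟩
  set n := S.card
  set m := S.sup id + 1
  let e := Fintype.equivFin (I n)
  let v : Fin n → ℕ := fun i => S.orderEmbOfFin rfl i
  have hv : ∀ i, v i < m := fun i =>
    Nat.lt_succ_of_le (Finset.le_sup (f := id) (S.orderEmbOfFin_mem rfl i))
  let f : (I n → Fin n) → ℕ := fun w => ∑ i, v (w i) * m ^ (e i : ℕ)
  have hf : Function.Injective f := by
    intro w w' h
    have key : ∀ w : I n → Fin n, (finFunctionFinEquiv
        (fun j => (⟨v (w (e.symm j)), hv _⟩ : Fin m)) : ℕ) = f w := by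
      intro w
      rw [finFunctionFinEquiv_apply]
      exact (Fintype.sum_equiv e _ _ fun i => by simp).symm
    have := finFunctionFinEquiv.injective (Fin.ext ((key w).trans (h.trans (key w').symm)))
    funext i
    have h2 := congrArg Fin.val (congrFun this (e i))
    simp only [Equiv.symm_apply_apply] at h2
    exact (S.orderEmbOfFin rfl).injective h2
  let L : Finset (I n → Fin n) → Prop := fun A => ∃ l : Combinatorics.Line (Fin n) (I n),
    ∀ x, l x ∈ A
  have hL : ∀ A B, (∀ x, x ∈ A ∨ x ∈ B) → L A ∨ L B := by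
    intro A B h
    obtain ⟨l, c, hc⟩ := hHJ n fun w => decide (w ∈ A)
    cases c
    · exact Or.inr ⟨l, fun x => (h _).resolve_left (by simpa using hc x)⟩
    · exact Or.inl ⟨l, fun x => by simpa using hc x⟩
  have hC : ∀ A, L A → HasCopy S (A.image f) := by
    rintro A ⟨l, hl⟩
    refine ⟨∑ i with l.idxFun i = none, m ^ (e i : ℕ),
      (∑ i, ((l.idxFun i).map v).getD 0 * m ^ (e i : ℕ) : ℕ), ?_, fun s hs => ?_⟩
    · obtain ⟨i, hi⟩ := l.proper
      refine le_trans (Nat.one_le_pow _ _ (Nat.succ_pos _))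
        (Finset.single_le_sum (f := fun i => m ^ (e i : ℕ)) (fun _ _ => Nat.zero_le _)
          (show i ∈ _ by simpa using hi))
    · obtain ⟨x, rfl⟩ : ∃ x, v x = s := by
        have : s ∈ Set.range (S.orderEmbOfFin rfl) := by rwa [Finset.range_orderEmbOfFin]
        exact this
      refine ⟨_, Finset.mem_image_of_mem f (hl x), ?_⟩
      rw [← Nat.cast_mul, ← Nat.cast_add, Nat.cast_inj, Finset.sum_mul, Finset.sum_filter,
        ← Finset.sum_add_distrib]
      refine Finset.sum_congr rfl fun i _ => ?_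
      rcases h : l.idxFun i with _ | c <;> simp [Combinatorics.Line.coe_apply, h, mul_comm]
  rcases dich L hL (Fintype.card (I n → Fin n)) ∅ ∅ (by simp) with h | h | ⟨⟨y, -, -⟩, h⟩
  · simpa using transfer L S f hf hC _ ∅ ∅ ∅ (by simp) h
  · obtain ⟨l, hl⟩ := h
    simpa using hl ⟨0, hS.card_pos⟩
  · simpa using transfer L S f hf hC _ ∅ _ ∅ (by simp) (h y (by simp) (by simp))

end Pool.Agent.Results.MP_3e1131_co.Bounded
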